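import Pool.Agent.Helper92.MU.BAL

/-! IRR: irreducibility of the rational and of almost all residual representations (helper92). -/

set_option autoImplicit false
set_option maxHeartbeats 800000

open Matrix Polynomial NumberField

namespace MU

lemma irr_whole {G K : Type} [Group G] [Field K] {n : ℕ} (r : G →* Matrix (Fin n) (Fin n) K) :
    IsSub r (1 : Matrix (Fin n) (Fin n) K) (fun g => r g) :=
  ⟨⟨1, Matrix.one_mul 1⟩, fun g => by rw [Matrix.mul_one, Matrix.one_mul]⟩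

lemma irr_le {G K : Type} [Group G] [Field K] {n m : ℕ} (r : G →* Matrix (Fin n) (Fin n) K)
    (B : Matrix (Fin n) (Fin m) K) (A : G → Matrix (Fin m) (Fin m) K) (h : IsSub r B A) :
    m ≤ n := by
  obtain ⟨⟨C, hC⟩, -⟩ := h
  have h2 : (C * B).rank = m := by rw [hC, Matrix.rank_one, Fintype.card_fin]
  have h3 := Matrix.rank_mul_le_right C B
  have h4 := Matrix.rank_le_height B
  omega

lemma irr_algebra {K : Type} [Field K] (α β P : K) (n m s s' d w E : ℕ)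
    (h1 : α * P ^ s = 1) (h2 : β * P ^ s' = 1) (hs : 2 * s = d * m * w) (hs' : 2 * s' = d * n * w)
    (h3 : α ^ (2 * n) = β ^ (2 * m) * P ^ E) : P ^ E = 1 := by
  have e1 : α ^ (2 * n) * P ^ (n * (2 * s)) = 1 := by
    have : P ^ (n * (2 * s)) = (P ^ s) ^ (2 * n) := by rw [← pow_mul]; congr 1; ring
    rw [this, ← mul_pow, h1, one_pow]
  have e2 : β ^ (2 * m) * P ^ (m * (2 * s')) = 1 := by
    have : P ^ (m * (2 * s')) = (P ^ s') ^ (2 * m) := by rw [← pow_mul]; congr 1; ring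
    rw [this, ← mul_pow, h2, one_pow]
  have e3 : n * (2 * s) = m * (2 * s') := by rw [hs, hs']; ring
  calc P ^ E = (β ^ (2 * m) * P ^ (m * (2 * s'))) * P ^ E := by rw [e2, one_mul]
    _ = (β ^ (2 * m) * P ^ E) * P ^ (m * (2 * s')) := by ring
    _ = 1 := by rw [← h3, ← e3, e1]

section
variable {F : Type} [Field F] [NumberField F] {S : Finset ℕ} {n w : ℕ} {h : Fin n → ℕ}

lemma irr_core (lin : ST_LIN) (M : Mot F S n w h) (l : ℕ) [Fact l.Prime] {K : Type} [Field K]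
    (f : ℤ_[l] →+* K) (p : ℕ) (hpS : p ∈ S) (hpl : p ≠ l) (hpK : (p : K) ≠ 0)
    (hτ : ∀ 𝔓 : Ideal (Zb F), Over p 𝔓 → ∃ τ : Gal F, CongPow 𝔓 1 τ ∧
      (balRep f (M.ρ l) τ - 1) ^ (n - 1) ≠ 0 ∧
      ∀ (k : ℕ) (g : Gal F), 1 ≤ k → CongPow 𝔓 (p ^ k) g →
        M.ρ l (g * τ * g⁻¹) = (M.ρ l τ) ^ (p ^ k))
    (r : ℕ) (x : Fin r → Gal F) (k : Fin r → ℕ) (𝔔 : Fin r → Ideal (Zb F))
    (hTr : TrData F p r x k 𝔔) (m : ℕ) (B : Matrix (Fin n) (Fin m) K)
    (A : Gal F → Matrix (Fin m) (Fin m) K) (hs : IsSub (balRep f (M.ρ l)) B A) (s s' : ℕ)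
    (h1 : (∏ i, (A (x i)).det) * (p : K) ^ s = 1)
    (h2 : (∏ i, (balRep f (M.ρ l) (x i)).det) * (p : K) ^ s' = 1)
    (h3 : 2 * s = Module.finrank ℚ F * m * w) (h4 : 2 * s' = Module.finrank ℚ F * n * w) :
    (p : K) ^ (Module.finrank ℚ F * (m * n * (n - m))) = 1 := by
  obtain ⟨hTr1, hTr2⟩ := hTr
  refine irr_algebra (∏ i, (A (x i)).det) (∏ i, (balRep f (M.ρ l) (x i)).det) (p : K)
    n m s s' (Module.finrank ℚ F) w _ h1 h2 h3 h4 ?_
  rw [← hTr2, Finset.sum_mul, ← Finset.prod_pow_eq_pow_sum, ← Finset.prod_pow,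
    ← Finset.prod_pow, ← Finset.prod_mul_distrib]
  refine Finset.prod_congr rfl fun i _ => ?_
  obtain ⟨hO, hk, hc⟩ := hTr1 i
  obtain ⟨τ, hτ1, hτ2, hτ3⟩ := hτ (𝔔 i) hO
  obtain ⟨⟨C, hC⟩, hA⟩ := hs
  have h5 := hτ3 (k i) (x i) hk hc
  have h6 : balRep f (M.ρ l) (x i) * balRep f (M.ρ l) τ =
      balRep f (M.ρ l) τ ^ (p ^ k i) * balRep f (M.ρ l) (x i) := by
    have h7 : M.ρ l (x i) * M.ρ l τ = (M.ρ l τ) ^ (p ^ k i) * M.ρ l (x i) := by
      rw [← h5, map_mul, map_mul, map_inv, inv_mul_cancel_right]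
    rw [← map_mul, ← map_pow, ← map_mul]
    rw [← map_mul, ← map_pow, ← map_mul] at h7
    rw [balRep_apply, balRep_apply, h7]
  have h8 := lin K n m (p ^ k i) (by push_cast; exact pow_ne_zero _ hpK)
    (balRep f (M.ρ l) τ) (balRep f (M.ρ l) (x i)) B C (A τ) (A (x i)) h6
    (bal_nil M l f p hpS hpl (𝔔 i) hO τ hτ1) hτ2 hC (hA τ) (hA (x i))
  rw [h8]
  push_cast
  rw [← pow_mul]

lemma irr_two (h : Fin 2 → ℕ) (hinj : Function.Injective h) (d w : ℕ) (hd : Odd d)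
    (J J' : Fin d → Finset (Fin 2)) (hJ : ∀ i, (J i).card = 1) (hJ' : ∀ i, (J' i).card = 2)
    (h1 : 2 * ∑ i, ∑ j ∈ J i, h j = d * 1 * w) (h2 : 2 * ∑ i, ∑ j ∈ J' i, h j = d * 2 * w) :
    False := by
  have hd0 : 0 < d := hd.pos
  have h3 : ∀ i, J' i = Finset.univ := fun i => by
    rw [← Finset.card_eq_iff_eq_univ, hJ' i, Fintype.card_fin]
  have h4 : h 0 + h 1 = w := by
    simp only [h3, Fin.sum_univ_two, Finset.sum_const, Finset.card_univ, Fintype.card_fin,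
      smul_eq_mul] at h2
    have : d * (2 * (h 0 + h 1)) = d * (2 * w) := by rw [← mul_assoc d 2 w, ← h2]; ring
    have := Nat.eq_of_mul_eq_mul_left hd0 this
    omega
  choose a ha using fun i => Finset.card_eq_one.mp (hJ i)
  simp only [ha, Finset.sum_singleton, mul_one] at h1
  -- signs
  have hδ : (h 0 : ℤ) - h 1 ≠ 0 := by
    intro h0
    have h5 : h 0 = h 1 := by omega
    exact absurd (hinj h5) (by decide)
  have h6 : ∀ i, (2 * (h (a i) : ℤ) - w) = (if a i = 0 then 1 else -1) * ((h 0 : ℤ) - h 1) := by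
    intro i
    have h7 : a i = 0 ∨ a i = 1 := by
      rcases Fin.exists_fin_two.mp ⟨a i, rfl⟩ with h | h
      · exact Or.inl h
      · exact Or.inr h
    rcases h7 with h7 | h7
    · rw [h7]; simp; omega
    · rw [h7]; simp; omega
  have h8 : (∑ i, (if a i = 0 then (1 : ℤ) else -1)) * ((h 0 : ℤ) - h 1) = 0 := by
    rw [Finset.sum_mul, ← Finset.sum_congr rfl fun i _ => h6 i, Finset.sum_sub_distrib,
      ← Finset.mul_sum]
    simp only [Finset.sum_const, Finset.card_univ, Fintype.card_fin, nsmul_eq_mul]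
    have : (2 * ∑ i, (h (a i) : ℤ)) = d * w := by exact_mod_cast h1
    rw [this]; ring
  have h9 : ∑ i, (if a i = 0 then (1 : ℤ) else -1) = 0 := by
    rcases mul_eq_zero.mp h8 with h | h
    · exact h
    · exact absurd h hδ
  have h10 : ((∑ i, (if a i = 0 then (1 : ℤ) else -1) : ℤ) : ZMod 2) = (d : ZMod 2) := by
    have h11 : ∀ i, (((if a i = 0 then (1 : ℤ) else -1) : ℤ) : ZMod 2) = 1 := by
      intro i; split_ifs <;> simp
    rw [Int.cast_sum, Finset.sum_congr rfl fun i _ => h11 i]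
    simp
  rw [h9] at h10
  have h12 : (d : ZMod 2) = 0 := by rw [← h10]; simp
  rw [ZMod.natCast_eq_zero_iff] at h12
  exact (Nat.not_even_iff_odd.mpr hd) (even_iff_two_dvd.mpr h12)

lemma irr_end {d m n : ℕ} (hd : 0 < d) (hmn : m ≤ n) (h : d * (m * n * (n - m)) = 0) :
    m = 0 ∨ m = n := by
  rcases Nat.mul_eq_zero.mp h with h | h
  · omega
  · rcases Nat.mul_eq_zero.mp h with h | h
    · rcases Nat.mul_eq_zero.mp h with h | h <;> omega
    · omega

end

theorem st_IRR (tri : ST_TRI) (bal : ST_BAL) (lin : ST_LIN) : ST_IRR := by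
  intro F _ _ S hS n w h M hAmp
  obtain ⟨r, x, k, 𝔔, hT⟩ := tri F
  obtain ⟨hb, cb, hb'⟩ := bal F r x k 𝔔 hT S hS n w h M
  have hd : 0 < Module.finrank ℚ F := Module.finrank_pos
  rcases hAmp with ⟨p, hpS, ⟨c, hc⟩, hp⟩ | ⟨hn, hinj, hodd⟩
  · have hpp : p.Prime := hS p hpS
    constructor
    · intro l _ m B A hs
      have hmn := irr_le _ _ _ hs
      by_cases hpl : l = p
      · subst hpl
        obtain ⟨-, h1⟩ := hb l m B A hs
        have h2 := h1 ((m : ℤ) * (w + m - n)) (fun 𝔓 h𝔓 σ hσ => hp.1 m B A hs 𝔓 h𝔓 σ hσ)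
        have h3 := mul_left_cancel₀ (by exact_mod_cast hd.ne' : (Module.finrank ℚ F : ℤ) ≠ 0) h2
        have h4 : (m : ℤ) * (m - n) = 0 := by linarith
        rcases mul_eq_zero.mp h4 with h | h
        · left; exact_mod_cast h
        · right; omega
      · obtain ⟨⟨J, hJ, hJ1, hJ2⟩, -⟩ := hb l m B A hs
        obtain ⟨⟨J', hJ', hJ1', hJ2'⟩, -⟩ := hb l n 1 _ (irr_whole (rat (M.ρ l)))
        have hpK : (p : ℚ_[l]) ≠ 0 := by exact_mod_cast hpp.ne_zero
        have h1 := irr_core lin M l (algebraMap ℤ_[l] ℚ_[l]) p hpS (Ne.symm hpl) hpK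
          (fun 𝔓 h𝔓 => by
            obtain ⟨τ, h1, h2, -, h3⟩ := hc l hpl 𝔓 h𝔓
            exact ⟨τ, h1, h2, h3⟩) (r p) (x p) (k p) (𝔔 p) (hT.1 p hpp) m B A hs _ _
          (hJ2 p hpp (Ne.symm hpl)) (hJ2' p hpp (Ne.symm hpl)) hJ1 hJ1'
        have h2 : p ^ (Module.finrank ℚ F * (m * n * (n - m))) = 1 := by exact_mod_cast h1
        refine irr_end hd hmn ?_
        exact (Nat.pow_eq_one.mp h2).resolve_left hpp.one_lt.ne'
    · refine ⟨cb + c + p + p ^ (Module.finrank ℚ F * (n * n * n)), fun l _ hl m B A hs => ?_⟩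
      have hmn := irr_le _ _ _ hs
      obtain ⟨J, hJ, hJ1, hJ2⟩ := hb' l (by omega) m B A hs
      obtain ⟨J', hJ', hJ1', hJ2'⟩ := hb' l (by omega) n 1 _ (irr_whole (res (M.ρ l)))
      have hpl : l ≠ p := by omega
      have hpK : (p : ZMod l) ≠ 0 := by
        rw [Ne, ZMod.natCast_eq_zero_iff]
        intro hdvd
        have := Nat.le_of_dvd hpp.pos hdvd
        omega
      have h1 := irr_core lin M l (PadicInt.toZMod (p := l)) p hpS (Ne.symm hpl) hpK
        (fun 𝔓 h𝔓 => by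
          obtain ⟨τ, h1, -, h2, h3⟩ := hc l hpl 𝔓 h𝔓
          exact ⟨τ, h1, h2 (by omega), h3⟩) (r p) (x p) (k p) (𝔔 p) (hT.1 p hpp) m B A hs _ _
        (hJ2 p hpp (Ne.symm hpl)) (hJ2' p hpp (Ne.symm hpl)) hJ1 hJ1'
      set E := Module.finrank ℚ F * (m * n * (n - m)) with hE
      have hE' : E ≤ Module.finrank ℚ F * (n * n * n) := by
        rw [hE]
        refine Nat.mul_le_mul_left _ ?_
        exact Nat.mul_le_mul (Nat.mul_le_mul_right _ hmn) (Nat.sub_le _ _)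
      have hlt : p ^ E < l := by
        have := Nat.pow_le_pow_right hpp.pos hE'
        omega
      have h2 : p ^ E = 1 := by
        have h3 : ((p ^ E : ℕ) : ZMod l) = ((1 : ℕ) : ZMod l) := by push_cast; exact h1
        rw [ZMod.natCast_eq_natCast_iff'] at h3
        rwa [Nat.mod_eq_of_lt hlt, Nat.mod_eq_of_lt (Fact.out : l.Prime).one_lt] at h3
      refine irr_end hd hmn ?_
      exact (Nat.pow_eq_one.mp h2).resolve_left hpp.one_lt.ne'
  · subst hn
    constructor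
    · intro l _ m B A hs
      have hmn := irr_le _ _ _ hs
      by_contra hcon
      have hm : m = 1 := by omega
      subst hm
      obtain ⟨⟨J, hJ, hJ1, -⟩, -⟩ := hb l 1 B A hs
      obtain ⟨⟨J', hJ', hJ1', -⟩, -⟩ := hb l 2 1 _ (irr_whole (rat (M.ρ l)))
      exact irr_two h hinj _ w hodd J J' hJ hJ' hJ1 hJ1'
    · refine ⟨cb, fun l _ hl m B A hs => ?_⟩
      have hmn := irr_le _ _ _ hs
      by_contra hcon
      have hm : m = 1 := by omega
      subst hm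
      obtain ⟨J, hJ, hJ1, -⟩ := hb' l hl 1 B A hs
      obtain ⟨J', hJ', hJ1', -⟩ := hb' l hl 2 1 _ (irr_whole (res (M.ρ l)))
      exact irr_two h hinj _ w hodd J J' hJ hJ' hJ1 hJ1'

end MU
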