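import Pool.Agent.Helper92.MU.LA

/-! BAL: the balance of determinants (helper92). -/

set_option autoImplicit false
set_option maxHeartbeats 800000

open Matrix Polynomial NumberField

namespace MU

/-- the representation over a `ℤ_l`-algebra which is a field -/
noncomputable def balRep {G : Type} [Group G] {n l : ℕ} [Fact l.Prime] {K : Type} [Field K]
    (f : ℤ_[l] →+* K) (r : G →* Matrix.GeneralLinearGroup (Fin n) ℤ_[l]) :
    G →* Matrix (Fin n) (Fin n) K :=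
  (f.mapMatrix (m := Fin n)).toMonoidHom.comp ((Units.coeHom _).comp r)

lemma balRep_apply {G : Type} [Group G] {n l : ℕ} [Fact l.Prime] {K : Type} [Field K]
    (f : ℤ_[l] →+* K) (r : G →* Matrix.GeneralLinearGroup (Fin n) ℤ_[l]) (g : G) :
    balRep f r g = (r g : Matrix (Fin n) (Fin n) ℤ_[l]).map f := rfl

lemma bal_rat {G : Type} [Group G] {n l : ℕ} [Fact l.Prime]
    (r : G →* Matrix.GeneralLinearGroup (Fin n) ℤ_[l]) :
    rat r = balRep (algebraMap ℤ_[l] ℚ_[l]) r := rfl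

lemma bal_res {G : Type} [Group G] {n l : ℕ} [Fact l.Prime]
    (r : G →* Matrix.GeneralLinearGroup (Fin n) ℤ_[l]) :
    res r = balRep (PadicInt.toZMod (p := l)) r := rfl

lemma bal_hom {G K : Type} [Group G] [Field K] {n m : ℕ} (r : G →* Matrix (Fin n) (Fin n) K)
    (B : Matrix (Fin n) (Fin m) K) (A : G → Matrix (Fin m) (Fin m) K) (h : IsSub r B A) :
    A 1 = 1 ∧ ∀ g g', A (g * g') = A g * A g' := by
  obtain ⟨⟨C, hC⟩, hA⟩ := h
  have hA' : ∀ g, A g = C * r g * B := fun g => by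
    rw [Matrix.mul_assoc, hA, ← Matrix.mul_assoc, hC, Matrix.one_mul]
  refine ⟨by rw [hA', map_one, Matrix.mul_one, hC], fun g g' => ?_⟩
  have : B * A (g * g') = B * (A g * A g') := by
    rw [← hA, map_mul, Matrix.mul_assoc, hA, ← Matrix.mul_assoc, hA, Matrix.mul_assoc]
  calc A (g * g') = C * (B * A (g * g')) := by rw [← Matrix.mul_assoc, hC, Matrix.one_mul]
    _ = A g * A g' := by rw [this, ← Matrix.mul_assoc, hC, Matrix.one_mul]

lemma bal_det {G K : Type} [Group G] [Field K] {n m : ℕ} (r : G →* Matrix (Fin n) (Fin n) K)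
    (B : Matrix (Fin n) (Fin m) K) (A : G → Matrix (Fin m) (Fin m) K) (h : IsSub r B A) :
    ∃ ε : G →* Kˣ, ∀ g, (ε g : K) = (A g).det := by
  obtain ⟨h1, h2⟩ := bal_hom r B A h
  let φ : G →* K :=
    { toFun := fun g => (A g).det
      map_one' := by simp [h1]
      map_mul' := fun g g' => by simp [h2] }
  exact ⟨φ.toHomUnits, fun g => rfl⟩

lemma bal_contDet {G : Type} [Group G] [TopologicalSpace G] [IsTopologicalGroup G] {n m l : ℕ}
    [Fact l.Prime] {K : Type} [Field K] [TopologicalSpace K] [IsTopologicalRing K]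
    (f : ℤ_[l] →+* K) (hf : Continuous f) (r : G →* Matrix.GeneralLinearGroup (Fin n) ℤ_[l])
    (hr : Continuous r) (B : Matrix (Fin n) (Fin m) K) (A : G → Matrix (Fin m) (Fin m) K)
    (h : IsSub (balRep f r) B A) (ε : G →* Kˣ) (hε : ∀ g, (ε g : K) = (A g).det) :
    Continuous ε := by
  obtain ⟨⟨C, hC⟩, hA⟩ := h
  have hA' : ∀ g, A g = C * balRep f r g * B := fun g => by
    rw [Matrix.mul_assoc, hA, ← Matrix.mul_assoc, hC, Matrix.one_mul]
  have hc : Continuous (fun g => (ε g : K)) := by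
    have e : (fun g => (ε g : K)) = fun g =>
        (C * ((r g : Matrix (Fin n) (Fin n) ℤ_[l]).map f) * B).det := by
      funext g
      rw [hε, hA', balRep_apply]
    rw [e]
    have h1 : Continuous (fun g => (r g : Matrix (Fin n) (Fin n) ℤ_[l])) :=
      Units.continuous_val.comp hr
    exact Continuous.matrix_det (Continuous.matrix_mul
      (Continuous.matrix_mul continuous_const (h1.matrix_map hf)) continuous_const)
  refine Units.continuous_iff.mpr ⟨hc, ?_⟩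
  have e : (fun g => (((ε g)⁻¹ : Kˣ) : K)) = (fun g => (ε g : K)) ∘ (fun g => g⁻¹) := by
    funext g
    simp
  rw [e]
  exact hc.comp continuous_inv

section
variable {F : Type} [Field F] [NumberField F] {S : Finset ℕ} {n w : ℕ} {h : Fin n → ℕ}

lemma bal_nil (M : Mot F S n w h) (l : ℕ) [Fact l.Prime] {K : Type} [Field K]
    (f : ℤ_[l] →+* K) (p : ℕ) (hp : p ∈ S) (hpl : p ≠ l) (𝔓 : Ideal (Zb F)) (h𝔓 : Over p 𝔓)
    (σ : Gal F) (hσ : CongPow 𝔓 1 σ) : (balRep f (M.ρ l) σ - 1) ^ n = 0 := by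
  have h1 := M.semistable l p hp hpl 𝔓 h𝔓 σ hσ
  have h2 : (((M.ρ l σ : Matrix (Fin n) (Fin n) ℤ_[l]) - 1) ^ n).map
      (algebraMap ℤ_[l] ℚ_[l]) = 0 := by
    have e : (((M.ρ l σ : Matrix (Fin n) (Fin n) ℤ_[l]) - 1) ^ n).map
        (algebraMap ℤ_[l] ℚ_[l]) = (rat (M.ρ l) σ - 1) ^ n := by
      have := map_pow ((algebraMap ℤ_[l] ℚ_[l]).mapMatrix (m := Fin n))
        ((M.ρ l σ : Matrix (Fin n) (Fin n) ℤ_[l]) - 1) n
      rw [map_sub, map_one] at this
      exact this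
    rw [e, h1]
  have h3 : ((M.ρ l σ : Matrix (Fin n) (Fin n) ℤ_[l]) - 1) ^ n = 0 := by
    ext i j
    have h4 := congrFun (congrFun h2 i) j
    rw [Matrix.map_apply, Matrix.zero_apply] at h4
    have hinj : Function.Injective (algebraMap ℤ_[l] ℚ_[l]) := IsFractionRing.injective _ _
    exact hinj (by rw [h4, Matrix.zero_apply, map_zero])
  have := map_pow (f.mapMatrix (m := Fin n))
    ((M.ρ l σ : Matrix (Fin n) (Fin n) ℤ_[l]) - 1) n
  rw [map_sub, map_one, h3, map_zero] at this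
  exact this.symm

lemma bal_out (M : Mot F S n w h) (l : ℕ) [Fact l.Prime] {K : Type} [Field K]
    (f : ℤ_[l] →+* K) {m : ℕ} (B : Matrix (Fin n) (Fin m) K) (A : Gal F → Matrix (Fin m) (Fin m) K)
    (hs : IsSub (balRep f (M.ρ l)) B A) (p : ℕ) (hp : p.Prime) (hpl : p ≠ l)
    (𝔓 : Ideal (Zb F)) (h𝔓 : Over p 𝔓) (σ : Gal F) (hσ : CongPow 𝔓 1 σ) : (A σ).det = 1 := by
  obtain ⟨⟨C, hC⟩, hA⟩ := hs
  by_cases hpS : p ∈ S
  · have h1 := bal_nil M l f p hpS hpl 𝔓 h𝔓 σ hσ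
    have h2 : ∀ i : ℕ, (balRep f (M.ρ l) σ - 1) ^ i * B = B * (A σ - 1) ^ i := by
      intro i
      induction i with
      | zero => simp
      | succ i ih =>
        have e1 : (balRep f (M.ρ l) σ - 1) * B = B * (A σ - 1) := by
          rw [Matrix.sub_mul, hA, Matrix.one_mul, Matrix.mul_sub, Matrix.mul_one]
        rw [pow_succ, Matrix.mul_assoc, e1, ← Matrix.mul_assoc, ih, Matrix.mul_assoc, pow_succ]
    refine bal_unip (n := n) _ ?_
    have h3 := h2 n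
    rw [h1, Matrix.zero_mul] at h3
    calc (A σ - 1) ^ n = C * (B * (A σ - 1) ^ n) := by
          rw [← Matrix.mul_assoc, hC, Matrix.one_mul]
      _ = 0 := by rw [← h3, Matrix.mul_zero]
  · have h1 := M.good l p hp hpS hpl 𝔓 h𝔓 σ hσ
    have h2 : balRep f (M.ρ l) σ = 1 := by
      rw [balRep_apply, h1]
      exact Matrix.map_one f (map_zero f) (map_one f)
    have h3 := hA σ
    rw [h2, Matrix.one_mul] at h3
    have h4 : A σ = 1 := by
      calc A σ = C * (B * A σ) := by rw [← Matrix.mul_assoc, hC, Matrix.one_mul]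
        _ = 1 := by rw [← h3, hC]
    rw [h4, Matrix.det_one]

lemma bal_unitp (l : ℕ) [Fact l.Prime] (p : ℕ) (hp : p.Prime) (hpl : p ≠ l) :
    ∃ u : ℤ_[l]ˣ, (u : ℤ_[l]) = p := by
  have h1 : IsUnit (p : ℤ_[l]) := by
    rw [PadicInt.isUnit_iff, PadicInt.norm_natCast_eq_one_iff]
    exact (Nat.coprime_primes (Fact.out) hp).mpr (Ne.symm hpl)
  exact ⟨h1.unit, h1.unit_spec⟩

lemma bal_core (M : Mot F S n w h)
    {r : ℕ → ℕ} {x : ∀ p, Fin (r p) → Gal F} {k : ∀ p, Fin (r p) → ℕ}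
    {𝔔 : ∀ p, Fin (r p) → Ideal (Zb F)} (hT : IsTri F r x k 𝔔) (l : ℕ) [Fact l.Prime]
    {K : Type} [Field K] [TopologicalSpace K] [IsTopologicalRing K] [T2Space K]
    (f : ℤ_[l] →+* K) (hf : Continuous f) {m : ℕ} (B : Matrix (Fin n) (Fin m) K)
    (A : Gal F → Matrix (Fin m) (Fin m) K) (hs : IsSub (balRep f (M.ρ l)) B A)
    (hHT : ∀ 𝔓 : Ideal (Zb F), Over l 𝔓 → ∃ J : Finset (Fin n), J.card = m ∧
      ∀ σ : Gal F, CongPow 𝔓 1 σ →
        (A σ).det * (f ((cyc l F σ : ℤ_[l]ˣ) : ℤ_[l])) ^ (∑ j ∈ J, h j) = 1) :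
    ∃ J : Fin (Module.finrank ℚ F) → Finset (Fin n), (∀ i, (J i).card = m) ∧
      ∀ p : ℕ, p.Prime → p ≠ l →
        (∏ i, (A (x p i)).det) * (p : K) ^ (∑ i, ∑ j ∈ J i, h j) = 1 := by
  obtain ⟨ε, hε⟩ := bal_det _ B A hs
  have hεc := bal_contDet f hf (M.ρ l) (M.continuous l) B A hs ε hε
  have hE : IsEps F l ε (Units.map (f : ℤ_[l] →* K))
      {b : ℤ | ∃ J : Finset (Fin n), J.card = m ∧ b = ((∑ j ∈ J, h j : ℕ) : ℤ)} := by
    refine ⟨hεc, Continuous.units_map _ hf, ?_, ?_⟩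
    · intro p hp hpl 𝔓 h𝔓 σ hσ
      apply Units.ext
      rw [hε, bal_out M l f B A hs p hp hpl 𝔓 h𝔓 σ hσ, Units.val_one]
    · intro 𝔓 h𝔓
      obtain ⟨J, hJ, hJ'⟩ := hHT 𝔓 h𝔓
      refine ⟨_, ⟨J, hJ, rfl⟩, fun σ hσ => ?_⟩
      apply Units.ext
      rw [zpow_natCast, Units.val_mul, hε, Units.val_pow_eq_pow_val, Units.val_one]
      exact hJ' σ hσ
  obtain ⟨b, hb, hb'⟩ := hT.2 l Kˣ ε (Units.map (f : ℤ_[l] →* K)) _ hE
  choose J hJ hJb using hb
  refine ⟨J, hJ, fun p hp hpl => ?_⟩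
  obtain ⟨u, hu⟩ := bal_unitp l p hp hpl
  have h1 := hb' p hp hpl u hu
  have h2 : ∑ i, b i = ((∑ i, ∑ j ∈ J i, h j : ℕ) : ℤ) := by
    rw [Nat.cast_sum]
    exact Finset.sum_congr rfl fun i _ => hJb i
  rw [h2, zpow_natCast] at h1
  have h3 := congrArg (Units.val) h1
  rw [Units.val_mul, Units.val_pow_eq_pow_val, Units.val_one, Units.coe_prod] at h3
  simp only [hε] at h3
  have h4 : ((Units.map (f : ℤ_[l] →* K) u : Kˣ) : K) = (p : K) := by
    rw [Units.coe_map, hu]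
    exact map_natCast f p
  rw [h4] at h3
  exact h3

lemma bal_core2 (M : Mot F S n w h)
    {r : ℕ → ℕ} {x : ∀ p, Fin (r p) → Gal F} {k : ∀ p, Fin (r p) → ℕ}
    {𝔔 : ∀ p, Fin (r p) → Ideal (Zb F)} (hT : IsTri F r x k 𝔔) (l : ℕ) [Fact l.Prime]
    {K : Type} [Field K] [TopologicalSpace K] [IsTopologicalRing K] [T2Space K]
    (f : ℤ_[l] →+* K) (hf : Continuous f) {m : ℕ} (B : Matrix (Fin n) (Fin m) K)
    (A : Gal F → Matrix (Fin m) (Fin m) K) (hs : IsSub (balRep f (M.ρ l)) B A) (e : ℤ)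
    (he : ∀ 𝔓 : Ideal (Zb F), Over l 𝔓 → ∀ σ : Gal F, CongPow 𝔓 1 σ →
        (A σ).det ^ 2 * (f ((cyc l F σ : ℤ_[l]ˣ) : ℤ_[l])) ^ e = 1) :
    ∀ p : ℕ, p.Prime → p ≠ l →
        (∏ i, (A (x p i)).det) ^ 2 * (p : K) ^ ((Module.finrank ℚ F : ℤ) * e) = 1 := by
  obtain ⟨ε, hε⟩ := bal_det _ B A hs
  have hεc := bal_contDet f hf (M.ρ l) (M.continuous l) B A hs ε hε
  have hE : IsEps F l (ε * ε) (Units.map (f : ℤ_[l] →* K)) {e} := by
    refine ⟨?_, Continuous.units_map _ hf, ?_, ?_⟩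
    · have : Continuous (fun g => ε g * ε g) := hεc.mul hεc
      exact this
    · intro p hp hpl 𝔓 h𝔓 σ hσ
      apply Units.ext
      rw [MonoidHom.mul_apply, Units.val_mul, hε, bal_out M l f B A hs p hp hpl 𝔓 h𝔓 σ hσ,
        Units.val_one, one_mul]
    · intro 𝔓 h𝔓
      refine ⟨e, rfl, fun σ hσ => ?_⟩
      apply Units.ext
      have := he 𝔓 h𝔓 σ hσ
      rw [MonoidHom.mul_apply, Units.val_mul, Units.val_mul, hε, Units.val_zpow_eq_zpow_val,
        Units.val_one, ← pow_two]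
      exact this
  obtain ⟨b, hb, hb'⟩ := hT.2 l Kˣ (ε * ε) (Units.map (f : ℤ_[l] →* K)) _ hE
  intro p hp hpl
  obtain ⟨u, hu⟩ := bal_unitp l p hp hpl
  have h1 := hb' p hp hpl u hu
  have h2 : ∑ i, b i = (Module.finrank ℚ F : ℤ) * e := by
    rw [Finset.sum_congr rfl fun i _ => (hb i : b i = e)]
    simp
  rw [h2] at h1
  have h3 := congrArg (Units.val) h1
  rw [Units.val_mul, Units.val_zpow_eq_zpow_val, Units.val_one, Units.coe_prod] at h3
  have h4 : ((Units.map (f : ℤ_[l] →* K) u : Kˣ) : K) = (p : K) := by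
    rw [Units.coe_map, hu]
    exact map_natCast f p
  rw [h4] at h3
  rw [← h3, ← Finset.prod_pow]
  congr 1
  refine Finset.prod_congr rfl fun i _ => ?_
  rw [MonoidHom.mul_apply, Units.val_mul, hε, pow_two]

lemma bal_pro (hPRO : ST_PRO) (M : Mot F S n w h) (p : ℕ) (hp : p.Prime) (hpS : p ∉ S)
    (r : ℕ) (x : Fin r → Gal F) (k : Fin r → ℕ) (𝔔 : Fin r → Ideal (Zb F))
    (hTr : TrData F p r x k 𝔔) (m s : ℕ) (hne : 2 * s ≠ Module.finrank ℚ F * m * w) :
    ∃ D : ℤ, D ≠ 0 ∧ ∀ (l : ℕ) [Fact l.Prime], l ≠ p → ∀ (K : Type) [Field K]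
      (f : ℤ_[l] →+* K) (B : Matrix (Fin n) (Fin m) K) (A : Gal F → Matrix (Fin m) (Fin m) K),
      IsSub (balRep f (M.ρ l)) B A → (∏ i, (A (x i)).det) * (p : K) ^ s = 1 → (D : K) = 0 := by
  obtain ⟨hTr1, hTr2⟩ := hTr
  choose P hP1 hP2 using fun i =>
    M.pure p hp hpS (𝔔 i) (hTr1 i).1 (k i) (x i) (hTr1 i).2.1 (hTr1 i).2.2
  have hmonic : ∀ i, (P i).Monic := by
    intro i
    obtain ⟨l₀, hl₀, hl₀p⟩ : ∃ l₀ : ℕ, l₀.Prime ∧ l₀ ≠ p := by
      by_cases h2 : p = 2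
      · exact ⟨3, Nat.prime_three, by omega⟩
      · exact ⟨2, Nat.prime_two, Ne.symm h2⟩
    have : Fact l₀.Prime := ⟨hl₀⟩
    have h1 := hP2 i l₀ hl₀p
    refine Polynomial.monic_of_injective (f := Int.castRingHom ℤ_[l₀]) ?_ ?_
    · exact Int.cast_injective
    · rw [← h1]; exact Matrix.charpoly_monic _
  obtain ⟨D, hD, hD'⟩ := hPRO r m 1 (p ^ s) (fun i => (p : ℝ) ^ (k i * w)) P hmonic hP1 (by
    intro heq
    apply hne
    have h1 : ∏ i, ((p : ℝ) ^ (k i * w)) ^ m = (p : ℝ) ^ (Module.finrank ℚ F * m * w) := by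
      rw [← hTr2, Finset.sum_mul, Finset.sum_mul, ← Finset.prod_pow_eq_pow_sum]
      refine Finset.prod_congr rfl fun i _ => ?_
      rw [← pow_mul]; congr 1; ring
    rw [h1] at heq
    have h2 : (p : ℝ) ^ (Module.finrank ℚ F * m * w) = (p : ℝ) ^ (2 * s) := by
      have : ((p ^ s : ℕ) : ℝ) ^ 2 = (p : ℝ) ^ (2 * s) := by
        push_cast; rw [← pow_mul]; congr 1; ring
      rw [← this, ← heq]; simp
    have h3 : p ^ (Module.finrank ℚ F * m * w) = p ^ (2 * s) := by exact_mod_cast h2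
    exact (Nat.pow_right_injective hp.two_le h3).symm)
  refine ⟨D, hD, ?_⟩
  intro l _ hlp K _ f B A hs hprod
  obtain ⟨h1, h2⟩ := bal_hom _ B A hs
  refine hD' K (fun i => (A (x i)⁻¹).charpoly) (fun i => ⟨Matrix.charpoly_monic _, ?_, ?_⟩) ?_
  · rw [Matrix.charpoly_natDegree_eq_dim, Fintype.card_fin]
  · have e : (P i).map (Int.castRingHom K) = (balRep f (M.ρ l) (x i)⁻¹).charpoly := by
      rw [balRep_apply, Matrix.charpoly_map, hP2 i l hlp, Polynomial.map_map]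
      congr 1
      exact RingHom.ext_int _ _
    rw [e]
    obtain ⟨⟨C, hC⟩, hA⟩ := hs
    exact bal_dvd _ _ B C hC (hA _)
  · have e : ∀ i, (-1 : K) ^ m * ((A (x i)⁻¹).charpoly).coeff 0 = (A (x i)⁻¹).det := by
      intro i
      rw [Matrix.det_eq_sign_charpoly_coeff, Fintype.card_fin]
    simp only [e]
    have h3 : (∏ i, (A (x i)⁻¹).det) * (∏ i, (A (x i)).det) = 1 := by
      rw [← Finset.prod_mul_distrib]
      refine Finset.prod_eq_one fun i _ => ?_
      rw [← Matrix.det_mul, ← h2, inv_mul_cancel, h1, Matrix.det_one]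
    push_cast
    rw [one_mul]
    calc (∏ i, (A (x i)⁻¹).det) = (∏ i, (A (x i)⁻¹).det) *
          ((∏ i, (A (x i)).det) * (p : K) ^ s) := by rw [hprod, mul_one]
      _ = (p : K) ^ s := by rw [← mul_assoc, h3, one_mul]

lemma bal_prime (S : Finset ℕ) (l : ℕ) : ∃ p : ℕ, p.Prime ∧ p ∉ S ∧ p ≠ l := by
  obtain ⟨p, hp1, hp2⟩ := Nat.exists_infinite_primes (S.sup id + l + 1)
  refine ⟨p, hp2, fun hpS => ?_, by omega⟩
  have := Finset.le_sup (f := id) hpS
  simp only [id] at this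
  omega

end

theorem st_BAL (hPRO : ST_PRO) : ST_BAL := by
  intro F _ _ r x k 𝔔 hT S hS n w h M
  have hcont : ∀ (l : ℕ) [Fact l.Prime], Continuous (algebraMap ℤ_[l] ℚ_[l]) := by
    intro l _
    exact continuous_subtype_val
  have hcont' : ∀ (l : ℕ) [Fact l.Prime], Continuous (PadicInt.toZMod (p := l)) := by
    intro l _
    refine continuous_of_continuousAt_zero (PadicInt.toZMod (p := l)) ?_
    have h1 : ∀ᶠ y in nhds (0 : ℤ_[l]), (0 : ZMod l) = PadicInt.toZMod y := by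
      filter_upwards [Metric.ball_mem_nhds (0 : ℤ_[l]) one_pos] with y hy
      have h2 : y ∈ RingHom.ker (PadicInt.toZMod (p := l)) := by
        rw [PadicInt.ker_toZMod, IsLocalRing.mem_maximalIdeal, PadicInt.mem_nonunits]
        simpa using hy
      exact ((RingHom.mem_ker).mp h2).symm
    exact (continuousAt_const (y := (0 : ZMod l))).congr h1
  refine ⟨fun l _ m B A hs => ?_, ?_⟩
  · obtain ⟨J, hJ, hrel⟩ := bal_core M hT l (algebraMap ℤ_[l] ℚ_[l]) (hcont l) B A hs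
      (fun 𝔓 h𝔓 => M.hodgeTate l m B A hs 𝔓 h𝔓)
    have hbal : 2 * ∑ i, ∑ j ∈ J i, h j = Module.finrank ℚ F * m * w := by
      by_contra hne
      obtain ⟨p, hp, hpS, hpl⟩ := bal_prime S l
      obtain ⟨D, hD, hD'⟩ := bal_pro hPRO M p hp hpS (r p) (x p) (k p) (𝔔 p) (hT.1 p hp) m _ hne
      have := hD' l (Ne.symm hpl) ℚ_[l] _ B A hs (hrel p hp hpl)
      exact hD (by exact_mod_cast this)
    refine ⟨⟨J, hJ, hbal, hrel⟩, ?_⟩
    intro e he
    obtain ⟨p, hp, hpS, hpl⟩ := bal_prime S l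
    have h1 := bal_core2 M hT l (algebraMap ℤ_[l] ℚ_[l]) (hcont l) B A hs e he p hp hpl
    have h2 := hrel p hp hpl
    have hp0 : (p : ℚ_[l]) ≠ 0 := by exact_mod_cast hp.ne_zero
    have h3 : (p : ℚ_[l]) ^ ((Module.finrank ℚ F : ℤ) * e) =
        (p : ℚ_[l]) ^ (2 * (∑ i, ∑ j ∈ J i, h j)) := by
      have h4 : (∏ i, (A (x p i)).det) ≠ 0 := by
        intro h0
        rw [h0, zero_mul] at h2
        exact zero_ne_one h2
      have h5 : (∏ i, (A (x p i)).det) ^ 2 * (p : ℚ_[l]) ^ (2 * (∑ i, ∑ j ∈ J i, h j)) = 1 := by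
        have : (p : ℚ_[l]) ^ (2 * (∑ i, ∑ j ∈ J i, h j)) =
            ((p : ℚ_[l]) ^ (∑ i, ∑ j ∈ J i, h j)) ^ 2 := by
          rw [← pow_mul]; congr 1; ring
        rw [this, ← mul_pow, h2, one_pow]
      exact mul_left_cancel₀ (pow_ne_zero 2 h4) (h1.trans h5.symm)
    have h6 : (Module.finrank ℚ F : ℤ) * e = ((2 * (∑ i, ∑ j ∈ J i, h j) : ℕ) : ℤ) := by
      have h7 : (p : ℚ) ^ ((Module.finrank ℚ F : ℤ) * e) =
          (p : ℚ) ^ ((2 * (∑ i, ∑ j ∈ J i, h j) : ℕ) : ℤ) := by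
        rw [zpow_natCast]
        have : (((p : ℚ) ^ ((Module.finrank ℚ F : ℤ) * e) : ℚ) : ℚ_[l]) =
            (((p : ℚ) ^ (2 * (∑ i, ∑ j ∈ J i, h j)) : ℚ) : ℚ_[l]) := by
          push_cast
          exact h3
        exact_mod_cast this
      exact zpow_right_injective₀ (by exact_mod_cast hp.pos) (by exact_mod_cast hp.one_lt.ne') h7
    rw [h6, hbal]
    push_cast
    ring
  · obtain ⟨c, hc⟩ := M.fontaineLaffaille
    obtain ⟨p, hp, hpS, -⟩ := bal_prime S 0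
    have hex : ∀ m s : ℕ, ∃ D : ℤ, D ≠ 0 ∧ (2 * s ≠ Module.finrank ℚ F * m * w →
        ∀ (l : ℕ) [Fact l.Prime], l ≠ p → ∀ (K : Type) [Field K]
        (f : ℤ_[l] →+* K) (B : Matrix (Fin n) (Fin m) K) (A : Gal F → Matrix (Fin m) (Fin m) K),
        IsSub (balRep f (M.ρ l)) B A → (∏ i, (A (x p i)).det) * (p : K) ^ s = 1 →
          (D : K) = 0) := by
      intro m s
      by_cases hne : 2 * s ≠ Module.finrank ℚ F * m * w
      · obtain ⟨D, hD, hD'⟩ :=
          bal_pro hPRO M p hp hpS (r p) (x p) (k p) (𝔔 p) (hT.1 p hp) m s hne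
        exact ⟨D, hD, fun _ => hD'⟩
      · exact ⟨1, one_ne_zero, fun h => absurd h hne⟩
    choose D hD hD' using hex
    set T : ℕ := Module.finrank ℚ F * ∑ j, h j with hTdef
    refine ⟨c + p + ∑ m ∈ Finset.range (n + 1), ∑ s ∈ Finset.range (T + 1), (D m s).natAbs, ?_⟩
    intro l _ hl m B A hs
    obtain ⟨J, hJ, hrel⟩ := bal_core M hT l (PadicInt.toZMod (p := l)) (hcont' l) B A hs
      (fun 𝔓 h𝔓 => hc l (by omega) m B A hs 𝔓 h𝔓)
    refine ⟨J, hJ, ?_, hrel⟩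
    by_contra hne
    have hpl : p ≠ l := by omega
    have h1 := hD' m _ hne l (Ne.symm hpl) (ZMod l) _ B A hs (hrel p hp hpl)
    have hmn : m ≤ n := by
      obtain ⟨⟨C, hC⟩, -⟩ := hs
      have h2 : (C * B).rank = m := by rw [hC, Matrix.rank_one, Fintype.card_fin]
      have h3 := Matrix.rank_mul_le_right C B
      have h4 := Matrix.rank_le_height B
      omega
    have hsT : ∑ i, ∑ j ∈ J i, h j ≤ T := by
      rw [hTdef]
      calc ∑ i, ∑ j ∈ J i, h j ≤ ∑ i : Fin (Module.finrank ℚ F), ∑ j, h j :=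
            Finset.sum_le_sum fun i _ => Finset.sum_le_sum_of_subset (Finset.subset_univ _)
        _ = _ := by simp
    have h2 : (D m (∑ i, ∑ j ∈ J i, h j)).natAbs < l := by
      have h3 : (D m (∑ i, ∑ j ∈ J i, h j)).natAbs ≤
          ∑ s ∈ Finset.range (T + 1), (D m s).natAbs :=
        Finset.single_le_sum (f := fun s => (D m s).natAbs) (fun _ _ => Nat.zero_le _)
          (Finset.mem_range.mpr (by omega))
      have h4 : ∑ s ∈ Finset.range (T + 1), (D m s).natAbs ≤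
          ∑ m ∈ Finset.range (n + 1), ∑ s ∈ Finset.range (T + 1), (D m s).natAbs :=
        Finset.single_le_sum (f := fun m => ∑ s ∈ Finset.range (T + 1), (D m s).natAbs)
          (fun _ _ => Nat.zero_le _) (Finset.mem_range.mpr (by omega))
      omega
    rw [ZMod.intCast_zmod_eq_zero_iff_dvd] at h1
    have h5 := Int.natAbs_dvd_natAbs.mpr h1
    have h6 := Nat.le_of_dvd (Int.natAbs_pos.mpr (hD m _)) h5
    simp only [Int.natAbs_natCast] at h6
    omega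

end MU
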