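import Pool.Agent.Helper85.MU.Stmts

/-! Linear algebra for BAL (helper92). -/

set_option autoImplicit false
set_option maxHeartbeats 800000

open Matrix Polynomial

namespace MU

/-- the characteristic polynomial on a stable subspace divides the characteristic polynomial -/
lemma bal_dvd {K : Type} [CommRing K] {n m : ℕ} (r : Matrix (Fin n) (Fin n) K)
    (a : Matrix (Fin m) (Fin m) K) (B : Matrix (Fin n) (Fin m) K) (C : Matrix (Fin m) (Fin n) K)
    (hCB : C * B = 1) (hr : r * B = B * a) : a.charpoly ∣ r.charpoly := by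
  set f : K →+* K[X] := Polynomial.C with hf
  set B' : Matrix (Fin n) (Fin m) K[X] := B.map f with hB'
  set C' : Matrix (Fin m) (Fin n) K[X] := C.map f with hC'
  set r' : Matrix (Fin n) (Fin n) K[X] := r.map f with hr'
  set a' : Matrix (Fin m) (Fin m) K[X] := a.map f with ha'
  have h1 : C' * B' = 1 := by
    rw [hC', hB', ← Matrix.map_mul, hCB]
    exact Matrix.map_one f (map_zero f) (map_one f)
  have h2 : r' * B' = B' * a' := by
    rw [hr', hB', ha', ← Matrix.map_mul, ← Matrix.map_mul, hr]
  have hcr : r.charpoly = ((X : K[X]) • (1 : Matrix (Fin n) (Fin n) K[X]) - r').det := by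
    rw [Matrix.charpoly, Matrix.charmatrix, Matrix.scalar_apply, ← Matrix.smul_one_eq_diagonal]
    rfl
  have hca : a.charpoly = ((X : K[X]) • (1 : Matrix (Fin m) (Fin m) K[X]) - a').det := by
    rw [Matrix.charpoly, Matrix.charmatrix, Matrix.scalar_apply, ← Matrix.smul_one_eq_diagonal]
    rfl
  set Y : Matrix (Fin n) (Fin n) K[X] := (X : K[X]) • (1 : Matrix (Fin n) (Fin n) K[X]) - r'
    with hY
  set y : Matrix (Fin m) (Fin m) K[X] := (X : K[X]) • (1 : Matrix (Fin m) (Fin m) K[X]) - a'
    with hy
  have hYB : Y * B' = B' * y := by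
    rw [hY, hy, Matrix.sub_mul, Matrix.mul_sub, h2, Matrix.smul_mul, Matrix.mul_smul,
      Matrix.one_mul, Matrix.mul_one]
  set p : Matrix (Fin n) (Fin n) K[X] := B' * C' with hp
  have hpp : p * p = p := by
    rw [hp, Matrix.mul_assoc, ← Matrix.mul_assoc C' B' C', h1, Matrix.one_mul]
  have hYp : Y * p = p * Y * p := by
    have e1 : Y * p = B' * y * C' := by rw [hp, ← Matrix.mul_assoc, hYB]
    have e2 : p * Y * p = B' * (C' * (Y * B')) * C' := by
      rw [hp]; simp only [Matrix.mul_assoc]
    rw [e1, e2, hYB, ← Matrix.mul_assoc C' B' y, h1, Matrix.one_mul]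
  have hfac : Y = (p + Y * (1 - p)) * (Y * p + (1 - p)) := by
    have e : (p + Y * (1 - p)) * (Y * p + (1 - p)) =
        p * Y * p + (p - p * p) + Y * (Y * p - p * Y * p) + Y * (1 - p) * (1 - p) := by
      noncomm_ring
    rw [e, hpp, ← hYp]
    have e2 : Y * (1 - p) * (1 - p) = Y * (1 - p) := by
      have : (1 - p) * (1 - p) = 1 - p := by
        have : (1 - p) * (1 - p) = 1 - p - (p - p * p) := by noncomm_ring
        rw [this, hpp]; simp
      rw [Matrix.mul_assoc, this]
    rw [e2]
    noncomm_ring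
  have hdet : (Y * p + (1 - p)).det = y.det := by
    have e : Y * p + (1 - p) = 1 + B' * ((y - 1) * C') := by
      have : Y * p = B' * (y * C') := by rw [hp, ← Matrix.mul_assoc, hYB, Matrix.mul_assoc]
      have e3 : B' * ((y - 1) * C') = B' * (y * C') - B' * C' := by
        rw [Matrix.sub_mul y 1 C', Matrix.one_mul, Matrix.mul_sub]
      rw [this, e3, hp]
      abel
    rw [e, Matrix.det_one_add_mul_comm, Matrix.mul_assoc, h1, Matrix.mul_one]
    congr 1
    abel
  rw [hcr, hca, hfac, Matrix.det_mul, hdet]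
  exact Dvd.intro_left _ rfl

/-- unipotent matrices have determinant one -/
lemma bal_unip {K : Type} [Field K] {m n : ℕ} (a : Matrix (Fin m) (Fin m) K)
    (h : (a - 1) ^ n = 0) : a.det = 1 := by
  have hn : IsNilpotent (1 - a) := by
    refine ⟨n, ?_⟩
    have : (1 - a) = -(a - 1) := by abel
    rw [this, neg_pow, h, mul_zero]
  have h1 : (1 - a).charpoly = X ^ m := by
    have := Matrix.isNilpotent_charpoly_sub_pow_of_isNilpotent hn
    have h2 := this.eq_zero
    rw [sub_eq_zero] at h2
    simpa using h2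
  have h3 := Matrix.eval_charpoly (1 - a) 1
  rw [h1] at h3
  simp only [eval_pow, eval_X, one_pow, map_one, sub_sub_cancel] at h3
  exact h3.symm

end MU
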